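import Pool.Agent.H520.CG3.Cnt3

/-!
# The Calegari-Geraghty vanishing conjecture for `GL_3` over `ℚ`, in all degrees

For `G = GL_3` over `ℚ` one has `d_Y = 5`, `ℓ_0 = 1`, `q_0 = 2`, so the conjecture asserts that the
cohomology localised at a maximal ideal which is not Eisenstein is concentrated in the degrees `2`
and `3`. This is proved here for all levels and all coefficient modules.

The cohomology of `Y(K)` with coefficients in the local system of `W` is written as the group
cohomology `H^i(Γ, M_W)`, where `Γ = GL_3(ℚ)^+` is the group of the matrices of positive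
determinant and `M_W` is the representation of `GL_3` of the finite adeles coinduced by the
representation `W` of `K`, restricted to `Γ`. (Since `K` has no torsion with respect to `Γ`, the
groups `Γ ∩ x K x⁻¹` act freely on the contractible symmetric space of `GL_3(ℝ)^+`, and the space
`Y(K)` is the disjoint union of the quotients, over the double cosets `Γ x K`.) The theorem is
stated for every subgroup `Γ` of finite index of `GL_3(ℚ)`; `GL_3(ℚ)^+` has finite index, see
`pos_index`.
-/

open Pool.Agent.H520.CG3.Stm NumberField IsDedekindDomain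

namespace Pool.Agent.Results.MP_34be05_nt.GL3OverQ

/-- the matrices of positive determinant -/
def GLpos : Subgroup (GL (Fin 3) ℚ) where
  carrier := {γ | 0 < γ.1.det}
  one_mem' := by
    change 0 < (1 : Matrix (Fin 3) (Fin 3) ℚ).det
    rw [Matrix.det_one]
    exact one_pos
  mul_mem' := by
    intro a b ha hb
    change 0 < (a.1 * b.1).det
    rw [Matrix.det_mul]
    exact mul_pos ha hb
  inv_mem' := by
    intro a ha
    have h : a.1.det * a⁻¹.1.det = 1 := by
      rw [← Matrix.det_mul, ← Units.val_mul, mul_inv_cancel, Units.val_one, Matrix.det_one]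
    exact (pos_iff_pos_of_mul_pos (by rw [h]; exact one_pos)).1 ha

/-- `GL_3(ℚ)^+` has finite index in `GL_3(ℚ)` -/
theorem pos_index : GLpos.FiniteIndex := by
  have hd : ∀ a : GL (Fin 3) ℚ, a.1.det * a⁻¹.1.det = 1 := fun a => by
    rw [← Matrix.det_mul, ← Units.val_mul, mul_inv_cancel, Units.val_one, Matrix.det_one]
  have hneg : ∀ a : GL (Fin 3) ℚ, ¬ 0 < a.1.det → a.1.det < 0 := fun a ha =>
    lt_of_le_of_ne (not_lt.1 ha) fun h => by
      have h2 := hd a
      rw [h, zero_mul] at h2
      exact zero_ne_one h2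
  have h1 : ∀ a b : GL (Fin 3) ℚ, ¬ 0 < a.1.det → ¬ 0 < b.1.det → a⁻¹ * b ∈ GLpos := by
    intro a b ha hb
    change 0 < (a⁻¹.1 * b.1).det
    have h4 : a⁻¹.1.det < 0 := by
      by_contra h5
      have : a.1.det * a⁻¹.1.det ≤ 0 :=
        mul_nonpos_of_nonpos_of_nonneg (hneg a ha).le (not_lt.1 h5)
      rw [hd] at this
      exact absurd this (not_le.2 one_pos)
    rw [Matrix.det_mul]
    exact mul_pos_of_neg_of_neg h4 (hneg b hb)
  have h2 : Finite (GL (Fin 3) ℚ ⧸ GLpos) := by
    classical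
    let f : GL (Fin 3) ℚ ⧸ GLpos → Prop := fun q => 0 < q.out.1.det
    refine Finite.of_injective f fun q q' hq => ?_
    have e : (0 < q.out.1.det) = (0 < q'.out.1.det) := hq
    rw [← QuotientGroup.out_eq' q, ← QuotientGroup.out_eq' q', QuotientGroup.eq]
    by_cases h : 0 < q.out.1.det
    · exact GLpos.mul_mem (GLpos.inv_mem h) (show 0 < q'.out.1.det from e ▸ h)
    · exact h1 _ _ h (show ¬ 0 < q'.out.1.det from e ▸ h)
  exact Subgroup.finiteIndex_of_finite_quotient

/-- Let `p` be a prime, `O` a finite commutative algebra over `ℤ_p` (for instance the ring of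
integers of a finite extension of `ℚ_p`) and `W` a finitely generated `O`-module with its `p`-adic
topology and a continuous action `ρ` of `K`, where `K` is a compact open subgroup of `GL_3` of the
finite adeles such that no element `γ ≠ 1` of finite order of `Γ` is conjugate to an element of `K`
(this holds if `K` is neat). Let `S` be a finite set of places such that for `v ∉ S` the component
of `K` at `v` is `GL_3(ℤ_v)` and acts trivially on `W`. Let `T` be a commutative ring which acts on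
`H^i(Γ, M_W)` and contains elements `t v j` acting as the Hecke operators `T_{v,j}`, for `v ∉ S` and
`j = 1, 2, 3`. Let `m` be a maximal ideal of `T`, the kernel of a homomorphism `θ` to an
algebraically closed field `k` of characteristic `p`, with an attached representation
`r : Gal(L/ℚ) → GL_3(k)` which is irreducible. If the localisation of `H^i(Γ, M_W)` at `m` is not
zero, then `2 ≤ i ≤ 3`. -/
theorem result (p : ℕ) [Fact p.Prime] (O W : Type) [CommRing O] [Algebra ℤ_[p] O]
    [Module.Finite ℤ_[p] O] [AddCommGroup W] [Module O W] [Module.Finite O W]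
    [Module ℤ_[p] W] [IsScalarTower ℤ_[p] O W] [TopologicalSpace W] [IsModuleTopology ℤ_[p] W]
    (Γ : Subgroup (GL (Fin 3) ℚ)) (hΓ : Γ.FiniteIndex)
    (K : Subgroup (GL (Fin 3) (FiniteAdeleRing (𝓞 ℚ) ℚ)))
    (hopen : IsOpen (K : Set (GL (Fin 3) (FiniteAdeleRing (𝓞 ℚ) ℚ))))
    (hcompact : IsCompact (K : Set (GL (Fin 3) (FiniteAdeleRing (𝓞 ℚ) ℚ))))
    (hneat : ∀ γ ∈ Γ, ∀ x, x⁻¹ * diag γ * x ∈ K → ∀ n, 1 ≤ n → γ ^ n = 1 → γ = 1)
    (ρ : Representation O K W) (hρ : Continuous fun x : K × W => ρ x.1 x.2)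
    (S : Set (HeightOneSpectrum (𝓞 ℚ))) (hS : S.Finite)
    (hKS : ∀ v ∉ S, K ≤ (GLint v).comap (compAt v) ∧ Kloc v ≤ K ∧
      ∀ κ : K, κ.1 ∈ Kloc v → ρ κ = 1)
    (T : Type) [CommRing T] (t : HeightOneSpectrum (𝓞 ℚ) → ℕ → T) (i : ℕ)
    [Module T (Coh (diag.comp Γ.subtype) ρ i)]
    (hT : ∀ v ∉ S, ∀ j g, 1 ≤ j → j ≤ 3 → IsHeckeMat v j g →
      ActsAs (ι := diag.comp Γ.subtype) (ρ := ρ) (i := i) (t v j) (Kloc v) g)
    (k : Type) [Field k] [IsAlgClosed k] [CharP k p] (θ : T →+* k) (m : Ideal T) [m.IsMaximal]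
    (hm : RingHom.ker θ = m) (L : Type) [Field L] [NumberField L] [IsGalois ℚ L]
    (r : (L ≃ₐ[ℚ] L) →* GL (Fin 3) k) (hr : AttachedTo r S (fun v j => θ (t v j)))
    (hirr : ¬ ∃ V : Submodule k (Fin 3 → k), V ≠ ⊥ ∧ V ≠ ⊤ ∧ ∀ g, ∀ w ∈ V, (r g).1.mulVec w ∈ V)
    (hne : Nontrivial (LocalizedModule m.primeCompl (Coh (diag.comp Γ.subtype) ρ i))) :
    2 ≤ i ∧ i ≤ 3 := by
  have h1 : Module.Finite ℤ_[p] W := Module.Finite.trans O W
  refine Pool.Agent.H520.CG3.main p hΓ (Pool.Agent.H520.CG3.open_UN hopen)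
    (Pool.Agent.H520.CG3.compact_conj hcompact)
    (fun γ hγ x n hn h2 h3 => hneat γ hγ x h3 n hn h2)
    (Pool.Agent.H520.CG3.pcont_of_continuous p hρ) hS (fun v hv => ?_) i
    (Pool.Agent.H520.CG3.heckeActs Γ ρ hT) θ hm r hr hirr hne
  obtain ⟨h2, h3, h4⟩ := hKS v hv
  rw [← Pool.Agent.H520.CG3.Kloc_eq]
  exact ⟨fun κ hκ i j => (Pool.Agent.H520.CG3.mem_GLint.1 (h2 hκ) i j).1, h3, h4⟩

end Pool.Agent.Results.MP_34be05_nt.GL3OverQ
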